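import Mathlib
import Pool.Agent.Lib.MP_b5b0d6_mp.Mix
import Pool.Agent.Lib.MP_b5b0d6_mp.Own

/-!
# MP_b5b0d6_mp: a limit-periodic operator `H_V` with `σ_ac(H_V) ≠ ∅` and an eigenvector
-/

set_option autoImplicit false

open MeasureTheory

namespace Pool.Agent.Results.MP_b5b0d6_mp.MixedSpectrum

/-- `V` is limit-periodic: it is a uniform limit of periodic sequences. -/
def IsLimitPeriodic (V : ℤ → ℝ) : Prop :=
  ∀ ε : ℝ, 0 < ε → ∃ (W : ℤ → ℝ) (p : ℤ), 1 ≤ p ∧ (∀ n, W (n + p) = W n) ∧ ∀ n, |V n - W n| < ε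

/-- The Hilbert space `ℓ²(ℤ)` of complex sequences. -/
def L2 : Type := lp (fun _ : ℤ => ℂ) 2

noncomputable instance : NormedAddCommGroup L2 :=
  (lp.normedAddCommGroup : NormedAddCommGroup (lp (fun _ : ℤ => ℂ) 2))

noncomputable instance : InnerProductSpace ℂ L2 :=
  (lp.instInnerProductSpace : InnerProductSpace ℂ (lp (fun _ : ℤ => ℂ) 2))

instance : CompleteSpace L2 := inferInstanceAs (CompleteSpace (lp (fun _ : ℤ => ℂ) 2))

/-- The sequence `n ↦ ψ(n)`. -/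
def L2.seq (ψ : L2) : ℤ → ℂ := ψ.1

/-- `H` is the Schrödinger operator `H_V`: `(H ψ)(n) = ψ(n + 1) + ψ(n - 1) + V(n) ψ(n)`. -/
def IsSchrodinger (V : ℤ → ℝ) (H : L2 →L[ℂ] L2) : Prop :=
  ∀ (ψ : L2) (n : ℤ), (H ψ).seq n = ψ.seq (n + 1) + ψ.seq (n - 1) + (V n : ℂ) * ψ.seq n

/-- `μ` is the spectral measure of the bounded self-adjoint operator `H` at the vector `ψ`: the finite
Borel measure with bounded support and the moments `⟨ψ, H^m ψ⟩` (these determine `μ`). -/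
structure IsSpectralMeasure (H : L2 →L[ℂ] L2) (ψ : L2) (μ : Measure ℝ) : Prop where
  finite : IsFiniteMeasure μ
  support : ∃ R : ℝ, μ (Set.Icc (-R) R)ᶜ = 0
  moment : ∀ m : ℕ, ((∫ x, x ^ m ∂μ : ℝ) : ℂ) = inner ℂ ψ ((H ^ m) ψ)

/-- The absolutely continuous part of `μ` (Lebesgue decomposition). -/
noncomputable def acPart (μ : Measure ℝ) : Measure ℝ := volume.withDensity (μ.rnDeriv volume)

/-- The absolutely continuous spectrum of `H`: every neighbourhood of `E` is charged by the absolutely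
continuous part of some spectral measure of `H`. -/
def acSpectrum (H : L2 →L[ℂ] L2) : Set ℝ :=
  {E | ∀ U : Set ℝ, IsOpen U → E ∈ U →
    ∃ (ψ : L2) (μ : Measure ℝ), IsSpectralMeasure H ψ μ ∧ acPart μ U ≠ 0}

/-- `H` has purely absolutely continuous spectrum. -/
def IsPurelyAC (H : L2 →L[ℂ] L2) : Prop :=
  ∀ (ψ : L2) (μ : Measure ℝ), IsSpectralMeasure H ψ μ → μ ≪ volume

open Pool.Agent.LimPer in
/-- The spectral measures at the sites. -/
theorem site_measure (V : ℤ → ℝ) (C : ℝ) (hV : ∀ n, |V n| ≤ C) (k : ℤ) (μ : Measure ℝ)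
    (hf : IsFiniteMeasure μ) (hs : ∃ R : ℝ, μ (Set.Icc (-R) R)ᶜ = 0)
    (hm : ∀ m : ℕ, ∫ x, x ^ m ∂μ = fnl V k (Polynomial.X ^ m)) :
    IsSpectralMeasure (opCLM V C hV) (lp.single (E := fun _ : ℤ => ℂ) 2 k (1 : ℂ)) μ := by
  refine ⟨hf, hs, fun m => ?_⟩
  rw [hm]
  have h1 := opCLM_pow_single V C hV k m k
  have h2 := lp.inner_single_left (𝕜 := ℂ) k (1 : ℂ)
    (((opCLM V C hV) ^ m) (lp.single (E := fun _ : ℤ => ℂ) 2 k (1 : ℂ)))
  have h3 : fnl V k (Polynomial.X ^ m) = (op V ^ m) (Pi.single k (1 : ℝ) : ℤ → ℝ) k := by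
    rw [fnl, map_pow, Polynomial.aeval_X]
  rw [h1] at h2
  rw [h3]
  refine Eq.trans ?_ h2.symm
  simp

/-- A measure that is not singular has a point in the support of its a.c. part. -/
theorem exists_point {μ : Measure ℝ} (hf : IsFiniteMeasure μ) (h : ¬ μ ⟂ₘ (volume : Measure ℝ)) :
    ∃ E : ℝ, ∀ U : Set ℝ, IsOpen U → E ∈ U → acPart μ U ≠ 0 := by
  have h1 : acPart μ Set.univ ≠ 0 := by
    intro h2
    apply h
    rw [Measure.measure_univ_eq_zero] at h2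
    rw [← Measure.rnDeriv_eq_zero μ volume]
    rw [← withDensity_eq_zero_iff (Measure.measurable_rnDeriv _ _).aemeasurable]
    exact h2
  obtain ⟨E, _, hE⟩ := exists_mem_forall_mem_nhdsWithin_pos_measure h1
  refine ⟨E, fun U hU hEU => (hE U ?_).ne'⟩
  rw [nhdsWithin_univ]
  exact hU.mem_nhds hEU

open Pool.Agent.LimPer in
/-- **Full answer to Q1 (negative), in a strong form**: there is a limit-periodic `V` such that
`σ_ac(H_{tV}) ≠ ∅` for all `|t| ≤ 1`, but already `H_V` (that is, `λ = 1`) has an eigenvector in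
`ℓ²(ℤ)`; so `H_V` is not purely absolutely continuous. -/
theorem result : ∃ (V : ℤ → ℝ) (H : ℝ → (L2 →L[ℂ] L2)), IsLimitPeriodic V ∧
    (∀ t : ℝ, IsSchrodinger (fun n => t * V n) (H t) ∧ IsSelfAdjoint (H t)) ∧
    (∀ t : ℝ, |t| ≤ 1 → (acSpectrum (H t)).Nonempty) ∧
    (∃ ψ : L2, ψ ≠ 0 ∧ H 1 ψ = (5 / 2 : ℂ) • ψ) ∧ ¬ IsPurelyAC (H 1) := by
  have hsum := Mix.summable_abs_dd
  have hle := Mix.tsum_abs_dd_le
  have hbd : ∀ (t : ℝ) (n : ℤ), |t * Vinf Mix.dd n| ≤ |t| * 2 := by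
    intro t n
    rw [abs_mul]
    refine mul_le_mul_of_nonneg_left ?_ (abs_nonneg t)
    exact (Vinf_bdd Mix.dd hsum n).trans (hle.trans (by norm_num))
  set Hm : ℝ → (lp (fun _ : ℤ => ℂ) 2 →L[ℂ] lp (fun _ : ℤ => ℂ) 2) :=
    fun t => opCLM (fun n => t * Vinf Mix.dd n) (|t| * 2) (hbd t) with hHm
  have hmem : Memℓp (fun n : ℤ => (Mix.uinf n : ℂ)) 2 := by
    rw [memℓp_two_iff]
    refine Mix.summable_uinf.congr fun n => ?_
    rw [Complex.norm_real, Real.norm_eq_abs, sq_abs]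
  set ψ : lp (fun _ : ℤ => ℂ) 2 := ⟨fun n : ℤ => (Mix.uinf n : ℂ), hmem⟩ with hψ
  have hψ0 : ψ ≠ 0 := by
    intro h
    have h1 := congrArg (fun φ : lp (fun _ : ℤ => ℂ) 2 => φ 0) h
    have h2 : (Mix.uinf 0 : ℂ) = 0 := h1
    rw [Mix.uinf_zero] at h2
    norm_num at h2
  have heig : Hm 1 ψ = (5 / 2 : ℂ) • ψ := by
    ext n
    simp only [lp.coeFn_smul, Pi.smul_apply, smul_eq_mul]
    rw [hHm, opCLM_apply]
    show (Mix.uinf (n + 1) : ℂ) + (Mix.uinf (n - 1) : ℂ) +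
      ((1 * Vinf Mix.dd n : ℝ) : ℂ) * (Mix.uinf n : ℂ) = 5 / 2 * (Mix.uinf n : ℂ)
    have h1 := Mix.uinf_eq n
    rw [one_mul]
    have h2 := congrArg (fun x : ℝ => (x : ℂ)) h1
    push_cast at h2
    exact h2
  refine ⟨Vinf Mix.dd, Hm, ?_, ?_, ?_, ⟨ψ, hψ0, heig⟩, ?_⟩
  · intro ε hε
    obtain ⟨p, hp, W, hW, h⟩ := Vinf_limitPeriodic Mix.dd hsum ε hε
    exact ⟨W, p, hp, hW, h⟩
  · intro t
    exact ⟨fun ψ n => rfl, opCLM_selfAdjoint _ _ _⟩
  · intro t ht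
    have hs2 : Summable fun j => |t * Mix.dd j| := by
      simp only [abs_mul]
      exact hsum.mul_left _
    have hlt : ∑' j, |t * Mix.dd j| < 2 := by
      simp only [abs_mul]
      rw [tsum_mul_left]
      have h0 : 0 ≤ ∑' j, |Mix.dd j| := tsum_nonneg fun j => abs_nonneg _
      nlinarith [abs_nonneg t]
    obtain ⟨k, μ, hf, hs, hm, hns⟩ := exists_nonsingular_supp (fun j => t * Mix.dd j) hs2 hlt
    have hV : Vinf (fun j => t * Mix.dd j) = fun n => t * Vinf Mix.dd n := by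
      funext n
      exact Vinf_smul Mix.dd t n
    rw [hV] at hm
    obtain ⟨E, hE⟩ := exists_point hf hns
    exact ⟨E, fun U hU hEU => ⟨_, μ, site_measure _ _ (hbd t) k μ hf hs hm, hE U hU hEU⟩⟩
  · intro hac
    have hpow : ∀ m : ℕ, ((Hm 1) ^ m) ψ = ((5 / 2 : ℂ) ^ m) • ψ := by
      intro m
      induction m with
      | zero => simp
      | succ m ih =>
        rw [pow_succ']
        show Hm 1 ((Hm 1 ^ m) ψ) = _
        rw [ih, map_smul, heig, smul_smul, pow_succ]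
    have hspec : IsSpectralMeasure (Hm 1) ψ (ENNReal.ofReal (‖ψ‖ ^ 2) • Measure.dirac (5 / 2)) := by
      refine ⟨?_, ⟨5 / 2, ?_⟩, ?_⟩
      · constructor
        rw [Measure.smul_apply, Measure.dirac_apply_of_mem (Set.mem_univ _), smul_eq_mul, mul_one]
        exact ENNReal.ofReal_lt_top
      · rw [Measure.smul_apply, Measure.dirac_apply' _ measurableSet_Icc.compl]
        have h : (5 / 2 : ℝ) ∉ (Set.Icc (-(5 / 2)) (5 / 2) : Set ℝ)ᶜ := by
          rw [Set.mem_compl_iff, not_not, Set.mem_Icc]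
          norm_num
        rw [Set.indicator_of_notMem h, smul_zero]
      · intro m
        rw [integral_smul_measure, integral_dirac, ENNReal.toReal_ofReal (by positivity)]
        have h1 : inner ℂ ψ (((Hm 1) ^ m) ψ) = (5 / 2 : ℂ) ^ m * ((‖ψ‖ : ℂ)) ^ 2 := by
          rw [hpow, inner_smul_right, inner_self_eq_norm_sq_to_K]
          rfl
        refine Eq.trans ?_ h1.symm
        rw [smul_eq_mul]
        push_cast
        ring
    have h1 := hac ψ _ hspec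
    have h2 : (ENNReal.ofReal (‖ψ‖ ^ 2) • Measure.dirac (5 / 2) : Measure ℝ) {5 / 2} = 0 := h1 (by simp)
    rw [Measure.smul_apply, Measure.dirac_apply_of_mem (Set.mem_singleton _), smul_eq_mul, mul_one,
      ENNReal.ofReal_eq_zero] at h2
    have h3 : 0 < ‖ψ‖ := norm_pos_iff.2 hψ0
    have h4 : 0 < ‖ψ‖ ^ 2 := by positivity
    linarith

end Pool.Agent.Results.MP_b5b0d6_mp.MixedSpectrum
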